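import Mathlib

/-!
# Integers without a prime factor congruent to `1` modulo `Q` have density zero
(the divergence statement is adapted from `Pool.Agent.Helper199.SumTwoSq`)
-/

set_option autoImplicit false

namespace Pool.Agent.H912.PF

open Filter Topology ArithmeticFunction ArithmeticFunction.vonMangoldt

/-- The reciprocals of the primes congruent to `1` modulo `Q` are not summable. -/
theorem not_summable_primes_one (Q : ℕ) [NeZero Q] :
    ¬ Summable (fun n : ℕ => if n.Prime ∧ ((n : ZMod Q) = 1) then (1 : ℝ) / n else 0) := by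
  intro H
  have hunit : IsUnit (1 : ZMod Q) := isUnit_one
  obtain ⟨C, hC⟩ := LSeries_residueClass_lower_bound (q := Q) (a := 1) hunit
  have hS2 := summable_residueClass_non_primes_div (q := Q) (1 : ZMod Q)
  set bound : ℕ → ℝ := fun n =>
    (if n.Prime ∧ ((n : ZMod Q) = 1) then (1 : ℝ) / n else 0) +
      (if n.Prime then 0 else residueClass (1 : ZMod Q) n) / n with hbound
  have hsum : Summable bound := H.add hS2
  -- the functions
  set x : ℕ → ℝ := fun j => 1 + 1 / ((j : ℝ) + 1) with hx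
  have hx1 : ∀ j, 1 < x j := by intro j; simp only [hx]; have : (0:ℝ) < 1 / ((j:ℝ)+1) := by positivity
                                linarith
  have hx2 : ∀ j, x j ≤ 2 := by
    intro j; simp only [hx]
    have : 1 / ((j:ℝ)+1) ≤ 1 := by
      rw [div_le_one (by positivity)]; have := Nat.cast_nonneg (α := ℝ) j; linarith
    linarith
  have hxlim : Tendsto (fun j => x j - 1) atTop (𝓝 0) := by
    have := tendsto_one_div_add_atTop_nhds_zero_nat (𝕜 := ℝ)
    simpa [hx] using this
  let f : ℕ → ℕ → ℝ := fun j n => (x j - 1) * (residueClass (1 : ZMod Q) n / (n : ℝ) ^ (x j))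
  have hf_bound : ∀ j n, ‖f j n‖ ≤ bound n := by
    intro j n
    have hpos : 0 < x j - 1 := by linarith [hx1 j]
    have hnn : 0 ≤ residueClass (1 : ZMod Q) n := residueClass_nonneg _ n
    have hn0 : 0 ≤ (n:ℝ) ^ (x j) := Real.rpow_nonneg (Nat.cast_nonneg n) _
    have hfn : 0 ≤ f j n := mul_nonneg hpos.le (div_nonneg hnn hn0)
    rw [Real.norm_of_nonneg hfn]
    rcases Nat.eq_zero_or_pos n with rfl | hn
    · simp [f, hbound]
    have hnR : (0:ℝ) < n := by exact_mod_cast hn
    have hn1 : (1:ℝ) ≤ n := by exact_mod_cast hn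
    by_cases hp : n.Prime
    · by_cases h3 : (n : ZMod Q) = 1
      · have hrc : residueClass (1 : ZMod Q) n = Real.log n := by
          simp [residueClass, Set.indicator, h3, vonMangoldt_apply_prime hp]
        have hb : bound n = 1 / n := by simp [hbound, hp, h3]
        rw [hb]
        simp only [f, hrc]
        have e1 : (n:ℝ) ^ (x j) = n * (n:ℝ) ^ (x j - 1) := by
          rw [← Real.rpow_one_add' hnR.le (by linarith)]; congr 1; ring
        rw [e1]
        have hlogn : 0 ≤ Real.log n := Real.log_nonneg hn1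
        have e2 : (x j - 1) * Real.log n ≤ (n:ℝ) ^ (x j - 1) := by
          rw [Real.rpow_def_of_pos hnR]
          have := Real.add_one_le_exp (Real.log n * (x j - 1))
          nlinarith
        have hpos2 : 0 < (n:ℝ) ^ (x j - 1) := Real.rpow_pos_of_pos hnR _
        rw [← mul_div_assoc, div_le_div_iff₀ (by positivity) hnR]
        nlinarith
      · have hrc : residueClass (1 : ZMod Q) n = 0 := by
          simp [residueClass, Set.indicator, h3]
        simp only [f, hrc]
        simp [hbound, hp, h3]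
    · have hb : bound n = residueClass (1 : ZMod Q) n / n := by simp [hbound, hp]
      rw [hb]
      simp only [f]
      have e1 : (n:ℝ) ≤ (n:ℝ) ^ (x j) := by
        conv_lhs => rw [← Real.rpow_one (n:ℝ)]
        exact Real.rpow_le_rpow_of_exponent_le hn1 (hx1 j).le
      have e2 : residueClass (1 : ZMod Q) n / (n : ℝ) ^ (x j) ≤ residueClass (1 : ZMod Q) n / n :=
        div_le_div_of_nonneg_left hnn hnR e1
      have e3 : x j - 1 ≤ 1 := by linarith [hx2 j]
      have e4 : 0 ≤ residueClass (1 : ZMod Q) n / (n : ℝ) ^ (x j) := div_nonneg hnn hn0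
      nlinarith
  have hf_lim : ∀ n, Tendsto (fun j => f j n) atTop (𝓝 0) := by
    intro n
    have hnn : 0 ≤ residueClass (1 : ZMod Q) n := residueClass_nonneg _ n
    rcases Nat.eq_zero_or_pos n with rfl | hn
    · simp [f]
    have hnR : (0:ℝ) < n := by exact_mod_cast hn
    have hn1 : (1:ℝ) ≤ n := by exact_mod_cast hn
    have up : ∀ j, f j n ≤ (x j - 1) * (residueClass (1 : ZMod Q) n / n) := by
      intro j
      have hpos : 0 < x j - 1 := by linarith [hx1 j]
      have e1 : (n:ℝ) ≤ (n:ℝ) ^ (x j) := by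
        conv_lhs => rw [← Real.rpow_one (n:ℝ)]
        exact Real.rpow_le_rpow_of_exponent_le hn1 (hx1 j).le
      exact mul_le_mul_of_nonneg_left (div_le_div_of_nonneg_left hnn hnR e1) hpos.le
    have lo : ∀ j, 0 ≤ f j n := by
      intro j
      have hpos : 0 < x j - 1 := by linarith [hx1 j]
      exact mul_nonneg hpos.le (div_nonneg hnn (Real.rpow_nonneg (Nat.cast_nonneg n) _))
    have l2 : Tendsto (fun j => (x j - 1) * (residueClass (1 : ZMod Q) n / n)) atTop (𝓝 0) := by
      have := hxlim.mul_const (residueClass (1 : ZMod Q) n / n)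
      simpa using this
    exact squeeze_zero lo up l2
  have hT := tendsto_tsum_of_dominated_convergence (f := f) (g := fun _ => (0:ℝ)) hsum
    hf_lim (Filter.Eventually.of_forall hf_bound)
  simp only [tsum_zero] at hT
  have hlow : ∀ j, ((Q.totient : ℝ)⁻¹) - C * (x j - 1) ≤ ∑' n, f j n := by
    intro j
    have hpos : 0 < x j - 1 := by linarith [hx1 j]
    have h1 := hC (x := x j) ⟨hx1 j, hx2 j⟩
    have h2 : ∑' n, f j n = (x j - 1) * ∑' n, residueClass (1 : ZMod Q) n / (n : ℝ) ^ (x j) := by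
      rw [← tsum_mul_left]
    rw [h2]
    have h3 := mul_le_mul_of_nonneg_left h1 hpos.le
    have h4 : (x j - 1) * ((Q.totient : ℝ)⁻¹ / (x j - 1) - C) = (Q.totient : ℝ)⁻¹ - C * (x j - 1) := by
      field_simp
    linarith [h4 ▸ h3]
  have hl2 : Tendsto (fun j => ((Q.totient : ℝ)⁻¹) - C * (x j - 1)) atTop (𝓝 ((Q.totient : ℝ)⁻¹)) := by
    have := (hxlim.const_mul C).const_sub ((Q.totient : ℝ)⁻¹)
    simpa using this
  have := le_of_tendsto_of_tendsto' hl2 hT hlow
  have h0 : 0 < (Q.totient : ℝ)⁻¹ := by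
    have : 0 < Q.totient := Nat.totient_pos.2 (Nat.pos_of_ne_zero (NeZero.ne Q))
    positivity
  linarith


/-- finite sets of primes `≡ 1 mod Q` with large sum of reciprocals -/
theorem exists_large (Q : ℕ) [NeZero Q] (B : ℝ) :
    ∃ T : Finset ℕ, (∀ p ∈ T, p.Prime ∧ ((p : ZMod Q) = 1)) ∧ B < ∑ p ∈ T, (1 : ℝ) / p := by
  by_contra hcon
  push Not at hcon
  apply not_summable_primes_one Q
  refine summable_of_sum_le (c := B) ?_ ?_
  · intro n
    show (0 : ℝ) ≤ if n.Prime ∧ ((n : ZMod Q) = 1) then (1 : ℝ) / n else 0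
    split_ifs <;> positivity
  · intro u
    have h1 := hcon (u.filter fun p => p.Prime ∧ ((p : ZMod Q) = 1))
      (fun p hp => (Finset.mem_filter.1 hp).2)
    rw [Finset.sum_filter] at h1
    exact h1

theorem totient_prod (T : Finset ℕ) (hT : ∀ p ∈ T, p.Prime) :
    ((∏ p ∈ T, p).totient : ℝ) ≤ (∏ p ∈ T, p : ℕ) * Real.exp (-∑ p ∈ T, (1 : ℝ) / p) := by
  classical
  induction T using Finset.induction_on with
  | empty => simp
  | insert p T hp ih =>
    have hpp : p.Prime := hT p (Finset.mem_insert_self p T)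
    have hT' : ∀ q ∈ T, q.Prime := fun q hq => hT q (Finset.mem_insert_of_mem hq)
    have ih' := ih hT'
    rw [Finset.prod_insert hp, Finset.sum_insert hp]
    have hcop : p.Coprime (∏ q ∈ T, q) := by
      apply Nat.Coprime.prod_right
      intro q hq
      exact (Nat.coprime_primes hpp (hT' q hq)).2 (fun h => hp (h ▸ hq))
    rw [Nat.totient_mul hcop, Nat.totient_prime hpp]
    have hp1 : (1 : ℝ) ≤ p := by exact_mod_cast hpp.one_lt.le
    have hp0 : (0 : ℝ) < p := by linarith
    have h1 : ((p - 1 : ℕ) : ℝ) = p * (1 - 1 / p) := by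
      rw [Nat.cast_sub hpp.one_lt.le]
      field_simp
      simp
    have h2 : (1 : ℝ) - 1 / p ≤ Real.exp (-(1 / (p : ℝ))) := by
      have := Real.add_one_le_exp (-(1 / (p : ℝ)))
      linarith
    have h3 : (0 : ℝ) ≤ 1 - 1 / p := by
      have : (1 : ℝ) / p ≤ 1 := by
        rw [div_le_one hp0]; exact hp1
      linarith
    push_cast at ih' ⊢
    rw [h1, neg_add, Real.exp_add]
    calc (p : ℝ) * (1 - 1 / p) * ((∏ q ∈ T, q).totient : ℝ)
        ≤ (p : ℝ) * Real.exp (-(1 / (p : ℝ))) * ((∏ q ∈ T, (q : ℝ)) *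
            Real.exp (-∑ q ∈ T, (1 : ℝ) / q)) := by
          apply mul_le_mul _ ih' (Nat.cast_nonneg _) (by positivity)
          exact mul_le_mul_of_nonneg_left h2 hp0.le
      _ = (p : ℝ) * (∏ q ∈ T, (q : ℝ)) * (Real.exp (-(1 / (p : ℝ))) *
            Real.exp (-∑ q ∈ T, (1 : ℝ) / q)) := by ring

/-- a set of positive integers none of which has a prime factor `≡ 1 mod Q` has density zero -/
theorem density_zero (Q : ℕ) [NeZero Q] (S : Set ℕ)
    (hS : ∀ r ∈ S, 1 ≤ r → ∀ p : ℕ, p.Prime → (p : ZMod Q) = 1 → ¬ p ∣ r) :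
    Tendsto (fun N : ℕ => (Nat.card {r : ℕ // 1 ≤ r ∧ r ≤ N ∧ r ∈ S} : ℝ) / N) atTop (𝓝 0) := by
  classical
  rw [Metric.tendsto_atTop]
  intro ε hε
  obtain ⟨T, hT, hTB⟩ := exists_large Q (-Real.log (ε / 4))
  set P : ℕ := ∏ p ∈ T, p with hP
  have hPpos : 0 < P := Finset.prod_pos (fun p hp => (hT p hp).1.pos)
  have htot : (P.totient : ℝ) ≤ P * (ε / 4) := by
    refine (totient_prod T (fun p hp => (hT p hp).1)).trans ?_
    rw [← hP]
    apply mul_le_mul_of_nonneg_left _ (Nat.cast_nonneg _)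
    calc Real.exp (-∑ p ∈ T, (1 : ℝ) / p) ≤ Real.exp (Real.log (ε / 4)) := by
          apply Real.exp_le_exp.2; linarith
      _ = ε / 4 := Real.exp_log (by positivity)
  obtain ⟨N0, hN0⟩ := exists_nat_gt ((P.totient : ℝ) * 4 / ε)
  refine ⟨max N0 1, fun N hN => ?_⟩
  have hN1 : (1 : ℝ) ≤ N := by exact_mod_cast (le_max_right N0 1).trans hN
  have hNN0 : (N0 : ℝ) ≤ N := by exact_mod_cast (le_max_left N0 1).trans hN
  have hcard : Nat.card {r : ℕ // 1 ≤ r ∧ r ≤ N ∧ r ∈ S} ≤ P.totient * (N / P + 1) := by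
    have h1 := Nat.Ico_filter_coprime_le (a := P) 1 N hPpos.ne'
    refine le_trans ?_ h1
    set F : Finset ℕ := (Finset.Ico 1 (1 + N)).filter (fun x => P.Coprime x) with hF
    have hmem : ∀ x : {r : ℕ // 1 ≤ r ∧ r ≤ N ∧ r ∈ S}, x.1 ∈ F := by
      rintro ⟨r, hr1, hrN, hrS⟩
      rw [hF, Finset.mem_filter, Finset.mem_Ico]
      refine ⟨⟨hr1, by simp only; omega⟩, ?_⟩
      rw [hP]
      apply Nat.Coprime.prod_left
      intro p hp
      exact (Nat.Prime.coprime_iff_not_dvd (hT p hp).1).2 (hS r hrS hr1 p (hT p hp).1 (hT p hp).2)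
    have h2 : Nat.card {r : ℕ // 1 ≤ r ∧ r ≤ N ∧ r ∈ S} ≤ Nat.card {x // x ∈ F} := by
      refine Nat.card_le_card_of_injective (fun x => (⟨x.1, hmem x⟩ : {x // x ∈ F})) ?_
      intro x y hxy
      apply Subtype.ext
      exact congrArg (fun z : {x // x ∈ F} => z.1) hxy
    have h3 : Nat.card {x // x ∈ F} = F.card := by
      rw [Nat.card_eq_fintype_card, Fintype.card_coe]
    rw [h3] at h2
    exact h2
  have hN0' : (0 : ℝ) < N := by linarith
  have hPR : (0 : ℝ) < P := by exact_mod_cast hPpos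
  have hcR : (Nat.card {r : ℕ // 1 ≤ r ∧ r ≤ N ∧ r ∈ S} : ℝ) ≤ P.totient * ((N : ℝ) / P + 1) := by
    have h3 : (Nat.card {r : ℕ // 1 ≤ r ∧ r ≤ N ∧ r ∈ S} : ℝ) ≤
        ((P.totient * (N / P + 1) : ℕ) : ℝ) := by exact_mod_cast hcard
    refine h3.trans ?_
    push_cast
    apply mul_le_mul_of_nonneg_left _ (Nat.cast_nonneg _)
    have : ((N / P : ℕ) : ℝ) ≤ (N : ℝ) / P := Nat.cast_div_le
    linarith
  have hsmall : (P.totient : ℝ) < N * (ε / 4) := by
    have h4 : (P.totient : ℝ) * 4 / ε < N := lt_of_lt_of_le hN0 hNN0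
    rw [div_lt_iff₀ hε] at h4
    linarith
  have hbig : (P.totient : ℝ) * ((N : ℝ) / P) ≤ N * (ε / 4) := by
    have h5 : (P.totient : ℝ) / P ≤ ε / 4 := by
      rw [div_le_iff₀ hPR]; linarith
    calc (P.totient : ℝ) * ((N : ℝ) / P) = N * ((P.totient : ℝ) / P) := by ring
      _ ≤ N * (ε / 4) := mul_le_mul_of_nonneg_left h5 hN0'.le
  rw [Real.dist_eq, sub_zero, abs_of_nonneg (by positivity), div_lt_iff₀ hN0']
  calc (Nat.card {r : ℕ // 1 ≤ r ∧ r ≤ N ∧ r ∈ S} : ℝ) ≤ P.totient * ((N : ℝ) / P + 1) := hcR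
    _ = P.totient * ((N : ℝ) / P) + P.totient := by ring
    _ < N * (ε / 4) + N * (ε / 4) := by linarith
    _ ≤ ε * N := by nlinarith

end Pool.Agent.H912.PF
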